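import Pool.Agent.ASD.Stmts5

/-!
# Row DIX of the squad ASD: consequences of `Dx` (group theory of rank two)
-/

open scoped BigOperators

noncomputable section

namespace Pool.Agent.PP.SD.H17

open Pool.Agent.PP.SO Pool.Agent.PP.SD

section dix

variable {ℓ : ℕ} [Fact ℓ.Prime] {V₀ : Type} [CommGroup V₀] [Finite V₀]
  {E₀ : Subgroup (MulAut V₀)} {A₁ A₂ : Subgroup V₀}

theorem ord (hx : ∀ v : V₀, v ^ ℓ = 1) {c : V₀} (h1 : c ≠ 1) : orderOf c = ℓ :=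
  orderOf_eq_prime (hx c) h1

/-- a nontrivial element of a subgroup of prime order generates it -/
theorem zp (hx : ∀ v : V₀, v ^ ℓ = 1) {A : Subgroup V₀} (hA : Nat.card A = ℓ) {c : V₀} (hc : c ∈ A)
    (h1 : c ≠ 1) : Subgroup.zpowers c = A := by
  refine Subgroup.eq_of_le_of_card_ge (by rwa [Subgroup.zpowers_le]) ?_
  rw [Nat.card_zpowers, ord hx h1, hA]

theorem le_of (hx : ∀ v : V₀, v ^ ℓ = 1) {A W : Subgroup V₀} (hA : Nat.card A = ℓ) {c : V₀}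
    (hc : c ∈ A) (h1 : c ≠ 1) (hW : c ∈ W) : A ≤ W := by
  rw [← zp hx hA hc h1]
  rwa [Subgroup.zpowers_le]

theorem inf1 (h : Dx ℓ E₀ A₁ A₂) {a : V₀} (h1 : a ∈ A₁) (h2 : a ∈ A₂) : a = 1 := by
  have h3 : a ∈ A₁ ⊓ A₂ := ⟨h1, h2⟩
  rw [h.ds] at h3
  exact Subgroup.mem_bot.1 h3

/-- the decomposition -/
theorem dec (h : Dx ℓ E₀ A₁ A₂) (v : V₀) : ∃ a ∈ A₁, ∃ b ∈ A₂, v = a * b := by
  have h1 : Function.Injective (fun g : A₁ × A₂ => (g.1 * g.2 : V₀)) := by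
    rintro ⟨⟨a, ha⟩, ⟨b, hb⟩⟩ ⟨⟨a', ha'⟩, ⟨b', hb'⟩⟩ hab
    have h2 : a * b = a' * b' := hab
    have h3 : a'⁻¹ * a = b' * b⁻¹ := by
      rw [inv_mul_eq_iff_eq_mul, ← mul_assoc, ← h2]
      simp
    have h4 : a'⁻¹ * a = 1 := inf1 h (A₁.mul_mem (A₁.inv_mem ha') ha)
      (h3 ▸ A₂.mul_mem hb' (A₂.inv_mem hb))
    have h5 : a = a' := by
      rw [inv_mul_eq_one] at h4
      exact h4.symm
    have h6 : b = b' := by
      rw [h5] at h2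
      exact mul_left_cancel h2
    subst h5 h6
    rfl
  have h2 : Nat.card (A₁ × A₂) = Nat.card V₀ := by
    rw [Nat.card_prod, h.c1, h.c2, h.cd]
    ring
  have h3 := (Nat.bijective_iff_injective_and_card _).2 ⟨h1, h2⟩
  obtain ⟨⟨a, b⟩, hab⟩ := h3.2 v
  exact ⟨a, a.2, b, b.2, hab.symm⟩

theorem eq_of (h : Dx ℓ E₀ A₁ A₂) {a b a' b' : V₀} (ha : a ∈ A₁) (hb : b ∈ A₂) (ha' : a' ∈ A₁)
    (hb' : b' ∈ A₂) (e : a * b = a' * b') : a = a' ∧ b = b' := by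
  have h3 : a'⁻¹ * a = b' * b⁻¹ := by
    rw [inv_mul_eq_iff_eq_mul, ← mul_assoc, ← e]
    simp
  have h4 : a'⁻¹ * a = 1 := inf1 h (A₁.mul_mem (A₁.inv_mem ha') ha)
    (h3 ▸ A₂.mul_mem hb' (A₂.inv_mem hb))
  have h5 : a = a' := by
    rw [inv_mul_eq_one] at h4
    exact h4.symm
  refine ⟨h5, ?_⟩
  rw [h5] at e
  exact mul_left_cancel e

theorem exn {A : Subgroup V₀} (hA : Nat.card A = ℓ) : ∃ a ∈ A, a ≠ 1 := by
  have hp : ℓ.Prime := Fact.out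
  have h1 : 1 < Nat.card A := by rw [hA]; exact hp.one_lt
  have : Nontrivial A := Finite.one_lt_card_iff_nontrivial.1 h1
  obtain ⟨⟨a, ha⟩, hne⟩ := exists_ne (1 : A)
  exact ⟨a, ha, fun h => hne (Subtype.ext h)⟩

theorem exw {W : Subgroup V₀} (hW : W ≠ ⊥) : ∃ w ∈ W, w ≠ 1 := by
  by_contra hc
  push Not at hc
  exact hW ((Subgroup.eq_bot_iff_forall W).2 hc)

/-- an automorphism which fixes a nontrivial element of `A₁` and of `A₂` -/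
theorem fix1 (h : Dx ℓ E₀ A₁ A₂) {σ : MulAut V₀} {a b : V₀} (ha : a ∈ A₁) (ha1 : a ≠ 1)
    (hb : b ∈ A₂) (hb1 : b ≠ 1) (hσa : σ a = a) (hσb : σ b = b) : σ = 1 := by
  have hz : ∀ {A : Subgroup V₀} {c : V₀}, Nat.card A = ℓ → c ∈ A → c ≠ 1 → σ c = c →
      ∀ x ∈ A, σ x = x := by
    intro A c hA hc hc1 hσ x hx
    rw [← zp h.ex hA hc hc1] at hx
    obtain ⟨k, rfl⟩ := Subgroup.mem_zpowers_iff.1 hx
    rw [map_zpow, hσ]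
  ext v
  obtain ⟨x, hx, y, hy, rfl⟩ := dec h v
  rw [map_mul, hz h.c1 ha ha1 hσa x hx, hz h.c2 hb hb1 hσb y hy]
  rfl

/-- if `W` contains a nontrivial element of `A₁` and is not `A₁` it is `⊤` -/
theorem top1 (h : Dx ℓ E₀ A₁ A₂) {W : Subgroup V₀} {a : V₀} (ha : a ∈ A₁) (ha1 : a ≠ 1)
    (haW : a ∈ W) (hW : W ≠ A₁) : W = ⊤ := by
  have h1 : A₁ ≤ W := le_of h.ex h.c1 ha ha1 haW
  have h2 : ∃ w ∈ W, w ∉ A₁ := by
    by_contra hc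
    push Not at hc
    exact hW (le_antisymm hc h1)
  obtain ⟨w, hw, hwA⟩ := h2
  obtain ⟨x, hx, y, hy, rfl⟩ := dec h w
  have hyW : y ∈ W := (W.mul_mem_cancel_left (h1 hx)).1 hw
  have hy1 : y ≠ 1 := by
    rintro rfl
    exact hwA (by rwa [mul_one])
  have h3 : A₂ ≤ W := le_of h.ex h.c2 hy hy1 hyW
  rw [eq_top_iff]
  intro v _
  obtain ⟨x, hx, y, hy, rfl⟩ := dec h v
  exact W.mul_mem (h1 hx) (h3 hy)

theorem top2 (h : Dx ℓ E₀ A₁ A₂) {W : Subgroup V₀} {a : V₀} (ha : a ∈ A₂) (ha1 : a ≠ 1)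
    (haW : a ∈ W) (hW : W ≠ A₂) : W = ⊤ := by
  have h1 : A₂ ≤ W := le_of h.ex h.c2 ha ha1 haW
  have h2 : ∃ w ∈ W, w ∉ A₂ := by
    by_contra hc
    push Not at hc
    exact hW (le_antisymm hc h1)
  obtain ⟨w, hw, hwA⟩ := h2
  obtain ⟨x, hx, y, hy, rfl⟩ := dec h w
  have hxW : x ∈ W := (W.mul_mem_cancel_right (h1 hy)).1 hw
  have hx1 : x ≠ 1 := by
    rintro rfl
    exact hwA (by rwa [one_mul])
  have h3 : A₁ ≤ W := le_of h.ex h.c1 hx hx1 hxW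
  rw [eq_top_iff]
  intro v _
  obtain ⟨x, hx, y, hy, rfl⟩ := dec h v
  exact W.mul_mem (h3 hx) (h1 hy)

/-- (1) -/
theorem p1 (h : Dx ℓ E₀ A₁ A₂) (W : Subgroup V₀) (hW : Of A₁ A₂ W) : Rw E₀ W := by
  refine ⟨hW.1, fun σ hσ hfix => ?_⟩
  obtain ⟨a, ha, ha1⟩ := exn (V₀ := V₀) h.c1
  obtain ⟨b, hb, hb1⟩ := exn (V₀ := V₀) h.c2
  have htop : W = ⊤ → σ = 1 := by
    rintro rfl
    exact fix1 h ha ha1 hb hb1 (hfix a (Subgroup.mem_top a)) (hfix b (Subgroup.mem_top b))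
  obtain ⟨w, hw, hw1⟩ := exw hW.1
  obtain ⟨x, hx, y, hy, rfl⟩ := dec h w
  by_cases hx1 : x = 1
  · subst hx1
    rw [one_mul] at hw hw1
    exact htop (top2 h hy hw1 hw hW.2.2)
  by_cases hy1 : y = 1
  · subst hy1
    rw [mul_one] at hw hw1
    exact htop (top1 h hx hw1 hw hW.2.1)
  have h1 := hfix _ hw
  rw [map_mul] at h1
  obtain ⟨h2, h3⟩ := eq_of h (h.s1 σ hσ x hx) (h.s2 σ hσ y hy) hx hy h1
  exact fix1 h hx hx1 hy hy1 h2 h3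

/-- (2) -/
theorem p2 (h : Dx ℓ E₀ A₁ A₂) : A₁ ≠ ⊥ ∧ A₂ ≠ ⊥ ∧ A₁ ≠ ⊤ ∧ A₂ ≠ ⊤ ∧ A₁ ≠ A₂ ∧
    (∀ W, W ≤ A₁ → W = ⊥ ∨ W = A₁) ∧ (∀ W, W ≤ A₂ → W = ⊥ ∨ W = A₂) := by
  have hp : ℓ.Prime := Fact.out
  have hb : ∀ A : Subgroup V₀, Nat.card A = ℓ → A ≠ ⊥ := by
    rintro A hA rfl
    obtain ⟨a, ha, ha1⟩ := exn (V₀ := V₀) hA
    exact ha1 (Subgroup.mem_bot.1 ha)
  have ht : ∀ A : Subgroup V₀, Nat.card A = ℓ → A ≠ ⊤ := by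
    rintro A hA rfl
    rw [Subgroup.card_top, h.cd] at hA
    have := hp.one_lt
    nlinarith
  have hl : ∀ A : Subgroup V₀, Nat.card A = ℓ → ∀ W, W ≤ A → W = ⊥ ∨ W = A := by
    intro A hA W hW
    by_cases hW1 : W = ⊥
    · exact Or.inl hW1
    · obtain ⟨w, hw, hw1⟩ := exw hW1
      exact Or.inr (le_antisymm hW (le_of h.ex hA (hW hw) hw1 hw))
  refine ⟨hb _ h.c1, hb _ h.c2, ht _ h.c1, ht _ h.c2, ?_, hl _ h.c1, hl _ h.c2⟩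
  intro he
  have h1 := h.ds
  rw [← he, inf_idem] at h1
  exact hb _ h.c1 h1

/-- (3) -/
theorem p3 (h : Dx ℓ E₀ A₁ A₂) (c : V₀) (hc : c ∈ A₁) (hc1 : c ≠ 1) :
    Subgroup.zpowers c = A₁ ∧ kE E₀ c = Nat.card (St E₀ A₁) ∧
    nE E₀ c * kE E₀ c = Nat.card E₀ ∧ ¬ ℓ ∣ kE E₀ c ∧ ¬ ℓ ∣ nE E₀ c := by
  have h1 := zp h.ex h.c1 hc hc1
  have h2 : Es E₀ c = St E₀ A₁ := by
    ext σ
    constructor
    · rintro ⟨h3, h4⟩
      refine ⟨h3, fun w hw => ?_⟩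
      rw [← h1] at hw
      obtain ⟨k, rfl⟩ := Subgroup.mem_zpowers_iff.1 hw
      rw [map_zpow, h4]
    · rintro ⟨h3, h4⟩
      exact ⟨h3, h4 c hc⟩
  have h3 : Nat.card (Es E₀ c) ∣ Nat.card E₀ :=
    Subgroup.card_dvd_of_le fun σ hσ => hσ.1
  have h4 : nE E₀ c * kE E₀ c = Nat.card E₀ := by
    unfold nE kE
    exact Nat.div_mul_cancel h3
  refine ⟨h1, ?_, h4, fun h5 => h.cp (h5.trans h3), fun h5 => h.cp (h5.trans ⟨_, h4.symm⟩)⟩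
  unfold kE
  rw [h2]

/-- (4) -/
theorem p4 (h : Dx ℓ E₀ A₁ A₂) : ∃ c, Rgl E₀ c := by
  obtain ⟨a, ha, ha1⟩ := exn (V₀ := V₀) h.c1
  obtain ⟨b, hb, hb1⟩ := exn (V₀ := V₀) h.c2
  refine ⟨a * b, ?_, fun σ hσ hfix => ?_⟩
  · intro he
    have h1 : a = b⁻¹ := eq_inv_of_mul_eq_one_left he
    exact ha1 (inf1 h ha (h1 ▸ A₂.inv_mem hb))
  · rw [map_mul] at hfix
    obtain ⟨h2, h3⟩ := eq_of h (h.s1 σ hσ a ha) (h.s2 σ hσ b hb) ha hb hfix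
    exact fix1 h ha ha1 hb hb1 h2 h3

/-- (5) -/
theorem p5 (h : Dx ℓ E₀ A₁ A₂) : ∃ ρ : V₀ → ZMod ℓ, Hm ρ ∧ (∀ v ∈ A₂, ρ v = 0) ∧
    ∀ v ∈ A₁, v ≠ 1 → ρ v ≠ 0 := by
  have hH : Nat.card (Multiplicative (ZMod ℓ)) = ℓ := by
    rw [Nat.card_congr Multiplicative.toAdd, Nat.card_zmod]
  let φ : A₁ ≃* Multiplicative (ZMod ℓ) := mulEquivOfPrimeCardEq h.c1 hH
  choose a ha b hb hab using dec h
  have hpr : ∀ x ∈ A₁, ∀ y ∈ A₂, a (x * y) = x := fun x hx y hy =>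
    ((eq_of h (ha _) (hb _) hx hy (hab (x * y)).symm)).1
  refine ⟨fun v => Multiplicative.toAdd (φ ⟨a v, ha v⟩), fun v w => ?_, fun v hv => ?_,
    fun v hv hv1 => ?_⟩
  · have h1 : a (v * w) = a v * a w := by
      have h2 : v * w = (a v * a w) * (b v * b w) := by
        nth_rewrite 1 [hab v, hab w]
        exact mul_mul_mul_comm _ _ _ _
      rw [h2, hpr _ (A₁.mul_mem (ha v) (ha w)) _ (A₂.mul_mem (hb v) (hb w))]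
    have h3 : (⟨a (v * w), ha (v * w)⟩ : A₁) = ⟨a v, ha v⟩ * ⟨a w, ha w⟩ := Subtype.ext h1
    show Multiplicative.toAdd (φ ⟨a (v * w), ha (v * w)⟩) = _
    rw [h3, map_mul, toAdd_mul]
  · have h1 : a v = 1 := by
      have h2 := hpr 1 A₁.one_mem v hv
      rwa [one_mul] at h2
    have h3 : (⟨a v, ha v⟩ : A₁) = 1 := Subtype.ext h1
    show Multiplicative.toAdd (φ ⟨a v, ha v⟩) = 0
    rw [h3, map_one, toAdd_one]
  · have h1 : a v = v := by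
      have h2 := hpr v hv 1 A₂.one_mem
      rwa [mul_one] at h2
    intro h4
    apply hv1
    have h5 : φ ⟨a v, ha v⟩ = 1 := h4
    have h6 : (⟨a v, ha v⟩ : A₁) = 1 := (map_eq_one_iff φ φ.injective).1 h5
    rw [← h1]
    exact congrArg Subtype.val h6

theorem hm_one {ρ : V₀ → ZMod ℓ} (hρ : Hm ρ) : ρ 1 = 0 := by
  have h1 := hρ 1 1
  rw [mul_one] at h1
  exact left_eq_add.1 h1

theorem hm_inv {ρ : V₀ → ZMod ℓ} (hρ : Hm ρ) (v : V₀) : ρ v⁻¹ = - ρ v := by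
  have h1 := hρ v⁻¹ v
  rw [inv_mul_cancel, hm_one hρ] at h1
  exact eq_neg_of_add_eq_zero_left h1.symm

theorem hm_pow {ρ : V₀ → ZMod ℓ} (hρ : Hm ρ) (v : V₀) (k : ℕ) : ρ (v ^ k) = k * ρ v := by
  induction k with
  | zero => rw [pow_zero, hm_one hρ]; simp
  | succ k ih =>
    rw [pow_succ, hρ, ih]
    push_cast
    ring

theorem exk (h : Dx ℓ E₀ A₁ A₂) {a x : V₀} (ha : a ∈ A₁) (ha1 : a ≠ 1) (hx : x ∈ A₁) :
    ∃ k : ℕ, x = a ^ k := by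
  rw [← zp h.ex h.c1 ha ha1] at hx
  rw [← mem_powers_iff_mem_zpowers] at hx
  obtain ⟨k, hk⟩ := hx
  exact ⟨k, hk.symm⟩

/-- (6) -/
theorem p6 (h : Dx ℓ E₀ A₁ A₂) : ∃ χ : MulAut V₀ → ZMod ℓ, (∀ σ ∈ E₀, χ σ⁻¹ * χ σ = 1) ∧
    (∀ ρ : V₀ → ZMod ℓ, Hm ρ → (∀ v ∈ A₂, ρ v = 0) → ∀ σ ∈ E₀, ∀ v, ρ (σ v) = χ σ * ρ v) ∧
    ∑ᶠ σ ∈ {σ | σ ∈ E₀}, χ σ = 0 ∧ ∑ᶠ σ ∈ {σ | σ ∈ E₀}, χ σ⁻¹ = 0 := by
  classical
  obtain ⟨ρ₀, hρ₀, hρ₂, hρ₁⟩ := p5 h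
  obtain ⟨a, ha, ha1⟩ := exn (V₀ := V₀) h.c1
  have hne := hρ₁ a ha ha1
  obtain ⟨χ, hχ⟩ : ∃ χ : MulAut V₀ → ZMod ℓ, χ = fun σ => ρ₀ (σ a) / ρ₀ a := ⟨_, rfl⟩
  have key : ∀ ρ : V₀ → ZMod ℓ, Hm ρ → (∀ v ∈ A₂, ρ v = 0) → ∀ σ ∈ E₀, ∀ v,
      ρ (σ v) = χ σ * ρ v := by
    intro ρ hρ hρA σ hσ v
    obtain ⟨x, hx, y, hy, rfl⟩ := dec h v
    obtain ⟨k, rfl⟩ := exk h ha ha1 hx
    obtain ⟨m, hm⟩ := exk h ha ha1 (h.s1 σ hσ a ha)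
    have h1 : χ σ = m := by
      rw [hχ]
      show ρ₀ (σ a) / ρ₀ a = m
      rw [hm, hm_pow hρ₀, mul_div_assoc, div_self hne, mul_one]
    rw [map_mul, hρ, hρ, hρA y hy, hρA (σ y) (h.s2 σ hσ y hy), map_pow, hm, hm_pow hρ, hm_pow hρ,
      hm_pow hρ, h1]
    ring
  have hmul : ∀ σ ∈ E₀, ∀ τ : MulAut V₀, χ (σ * τ) = χ σ * χ τ := by
    intro σ hσ τ
    have h1 := key ρ₀ hρ₀ hρ₂ σ hσ (τ a)
    have h2 : χ (σ * τ) = ρ₀ (σ (τ a)) / ρ₀ a := by rw [hχ]; rfl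
    have h3 : χ τ = ρ₀ (τ a) / ρ₀ a := by rw [hχ]
    rw [h2, h1, h3, mul_div_assoc]
  have hone : χ 1 = 1 := by
    rw [hχ]
    show ρ₀ a / ρ₀ a = 1
    exact div_self hne
  have hinv : ∀ σ ∈ E₀, χ σ⁻¹ * χ σ = 1 := by
    intro σ hσ
    rw [← hmul σ⁻¹ (E₀.inv_mem hσ) σ, inv_mul_cancel, hone]
  have hsum : ∑ᶠ σ : E₀, χ σ = 0 := by
    obtain ⟨τ, hτ, v, hv, hτv⟩ := h.nt
    have hτ1 : χ τ ≠ 1 := by
      intro he
      have h1 := key ρ₀ hρ₀ hρ₂ τ hτ v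
      rw [he, one_mul] at h1
      have h2 : ρ₀ (τ v * v⁻¹) = 0 := by
        rw [hρ₀, hm_inv hρ₀, h1]
        ring
      by_cases h3 : τ v * v⁻¹ = 1
      · exact hτv (mul_inv_eq_one.1 h3)
      · exact hρ₁ _ (A₁.mul_mem (h.s1 τ hτ v hv) (A₁.inv_mem hv)) h3 h2
    have h1 : ∑ᶠ σ : E₀, χ σ = χ τ * ∑ᶠ σ : E₀, χ σ := by
      have h2 := finsum_comp_equiv (Equiv.mulLeft (⟨τ, hτ⟩ : E₀)) (f := fun σ : E₀ => χ σ)
      rw [mul_finsum (fun σ : E₀ => χ σ) (χ τ), ← h2]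
      refine finsum_congr fun σ => ?_
      exact hmul τ hτ σ
    have h2 : (1 - χ τ) * ∑ᶠ σ : E₀, χ σ = 0 := by
      linear_combination h1
    rcases mul_eq_zero.1 h2 with h3 | h3
    · exact absurd (sub_eq_zero.1 h3).symm hτ1
    · exact h3
  refine ⟨χ, hinv, key, ?_, ?_⟩
  · rw [← finsum_set_coe_eq_finsum_mem]
    exact hsum
  · rw [← finsum_set_coe_eq_finsum_mem]
    have h2 := finsum_comp_equiv (Equiv.inv E₀) (f := fun σ : E₀ => χ σ)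
    rw [hsum] at h2
    exact h2

/-- (7) -/
theorem p7 (h : Dx ℓ E₀ A₁ A₂) (κ : V₀) (hκ : κ ∈ A₁) (hκ1 : κ ≠ 1) :
    (∀ w ∈ A₂, w ≠ 1 → Of A₁ A₂ (Subgroup.zpowers (κ * w)) ∧
      Subgroup.zpowers (κ * w) ≠ ⊤ ∧ κ ∉ Subgroup.zpowers (κ * w) ∧
      ∀ w' ∈ A₂, Subgroup.zpowers (κ * w') = Subgroup.zpowers (κ * w) → w' = w) ∧
    ∀ W, Of A₁ A₂ W → W ≠ ⊤ → κ ∉ W ∧ ∃ w ∈ A₂, w ≠ 1 ∧ W = Subgroup.zpowers (κ * w) := by
  have hp : ℓ.Prime := Fact.out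
  refine ⟨fun w hw hw1 => ?_, fun W hW hWt => ?_⟩
  · have hne : κ * w ≠ 1 := by
      intro he
      have h1 : κ = w⁻¹ := eq_inv_of_mul_eq_one_left he
      exact hκ1 (inf1 h hκ (h1 ▸ A₂.inv_mem hw))
    have hmem : κ * w ∈ Subgroup.zpowers (κ * w) := Subgroup.mem_zpowers _
    have hbot : Subgroup.zpowers (κ * w) ≠ ⊥ := by
      intro he
      rw [he] at hmem
      exact hne (Subgroup.mem_bot.1 hmem)
    have h1 : Subgroup.zpowers (κ * w) ≠ A₁ := by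
      intro he
      rw [he] at hmem
      exact hw1 (inf1 h ((A₁.mul_mem_cancel_left hκ).1 hmem) hw)
    have h2 : Subgroup.zpowers (κ * w) ≠ A₂ := by
      intro he
      rw [he] at hmem
      exact hκ1 (inf1 h hκ ((A₂.mul_mem_cancel_right hw).1 hmem))
    have ht : Subgroup.zpowers (κ * w) ≠ ⊤ := by
      intro he
      have h3 : Nat.card (Subgroup.zpowers (κ * w)) = ℓ := by
        rw [Nat.card_zpowers, ord h.ex hne]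
      rw [he, Subgroup.card_top, h.cd] at h3
      have := hp.one_lt
      nlinarith
    refine ⟨⟨hbot, h1, h2⟩, ht, fun h3 => ht (top1 h hκ hκ1 h3 h1), fun w' hw' he => ?_⟩
    by_contra hne'
    have h3 : κ * w' ∈ Subgroup.zpowers (κ * w) := he ▸ Subgroup.mem_zpowers _
    have h4 : w' * w⁻¹ ∈ Subgroup.zpowers (κ * w) := by
      have h5 := (Subgroup.zpowers (κ * w)).mul_mem h3 ((Subgroup.zpowers (κ * w)).inv_mem hmem)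
      have e : κ * w' * (κ * w)⁻¹ = w' * w⁻¹ := by
        rw [mul_inv, mul_mul_mul_comm, mul_inv_cancel, one_mul]
      rwa [e] at h5
    exact ht (top2 h (A₂.mul_mem hw' (A₂.inv_mem hw)) (fun h5 => hne' (mul_inv_eq_one.1 h5)) h4 h2)
  · have h1 : ∀ x ∈ A₁, x ≠ 1 → x ∉ W := fun x hx hx1 hxW => hWt (top1 h hx hx1 hxW hW.2.1)
    have h2 : ∀ x ∈ A₂, x ≠ 1 → x ∉ W := fun x hx hx1 hxW => hWt (top2 h hx hx1 hxW hW.2.2)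
    refine ⟨h1 κ hκ hκ1, ?_⟩
    obtain ⟨x, hx, hx1⟩ := exw hW.1
    obtain ⟨a, ha, b, hb, rfl⟩ := dec h x
    have ha1 : a ≠ 1 := by
      rintro rfl
      rw [one_mul] at hx hx1
      exact h2 b hb hx1 hx
    obtain ⟨i, hi⟩ := exk h ha ha1 hκ
    have hmem : κ * b ^ i ∈ W := by
      rw [hi, ← mul_pow]
      exact W.pow_mem hx i
    have hw1 : b ^ i ≠ 1 := by
      intro he
      rw [he, mul_one] at hmem
      exact h1 κ hκ hκ1 hmem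
    refine ⟨b ^ i, A₂.pow_mem hb i, hw1, le_antisymm (fun y hy => ?_) (by
      rwa [Subgroup.zpowers_le])⟩
    obtain ⟨c, hc, d, hd, rfl⟩ := dec h y
    obtain ⟨j, rfl⟩ := exk h hκ hκ1 hc
    have h3 : d * ((b ^ i) ^ j)⁻¹ ∈ W := by
      have h5 := W.mul_mem hy (W.inv_mem (W.pow_mem hmem j))
      have e : κ ^ j * d * ((κ * b ^ i) ^ j)⁻¹ = d * ((b ^ i) ^ j)⁻¹ := by
        rw [mul_pow, mul_inv, mul_mul_mul_comm, mul_inv_cancel, one_mul]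
      rwa [e] at h5
    have h4 : d * ((b ^ i) ^ j)⁻¹ = 1 := by
      by_contra h5
      exact h2 _ (A₂.mul_mem hd (A₂.inv_mem (A₂.pow_mem (A₂.pow_mem hb i) j))) h5 h3
    rw [mul_inv_eq_one.1 h4, ← mul_pow]
    exact Subgroup.pow_mem _ (Subgroup.mem_zpowers _) j

end dix

theorem dix : DixStmt := by
  intro ℓ _ V₀ _ _ E₀ A₁ A₂ h
  exact ⟨p1 h, p2 h, p3 h, p4 h, p5 h, p6 h, p7 h⟩

end Pool.Agent.PP.SD.H17
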