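import Pool.Agent.ASD.Stmts6
import Pool.Agent.ASD.Stmts3

/-!
# Row HAT of the squad ASD: the stabiliser of the subpair `(A, b A)` is `T C(A)`
-/

open scoped BigOperators

noncomputable section

namespace Pool.Agent.PP.SD.H17

open Pool.Agent.Helper51_AWC Pool.Agent.Helper79_WRA Pool.Agent.PP Pool.Agent.PP.KF
open Pool.Agent.PP.K9 Pool.Agent.PP.K9.H97 Pool.Agent.PP.H75 Pool.Agent.PP.T3 Pool.Agent.PP.SO
open Pool.Agent.PP.SD

attribute [local instance] Ideal.Quotient.field

/-- a block of `X` is invariant under `X` -/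
theorem stab_of {F G : Type} [Field F] [Group G] {X : Subgroup G} {b : G → F} (hb : Bx X b) {c : G}
    (hc : c ∈ X) : c ∈ stabF b := by
  intro y
  by_cases hy : y ∈ X
  · exact hb.blk.1.1 ⟨y, hy⟩ ⟨c, hc⟩
  · have h1 : c * y * c⁻¹ ∉ X := by
      intro h
      apply hy
      have h2 := X.mul_mem (X.mul_mem (X.inv_mem hc) h) hc
      have e : c⁻¹ * (c * y * c⁻¹) * c = y := by group
      rwa [e] at h2
    rw [hb.supp y hy, hb.supp _ h1]

theorem norm_of {G : Type} [Group G] {Y : Subgroup G} {c : G}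
    (hc : c ∈ Subgroup.centralizer (Y : Set G)) : c ∈ Subgroup.normalizer (Y : Set G) := by
  rw [Subgroup.mem_centralizer_iff] at hc
  rw [Subgroup.mem_normalizer_iff]
  intro n
  constructor
  · intro hn
    have e : c * n * c⁻¹ = n := by rw [← hc n hn]; group
    rwa [e]
  · intro hn
    have h1 := hc _ hn
    have e : n = c * n * c⁻¹ := by
      have h2 : c * n * c⁻¹ * c = c * (c * n * c⁻¹) := h1
      have h3 : c * n = c * (c * n * c⁻¹) := by
        rw [← h2]
        group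
      exact mul_left_cancel h3
    rw [e]
    exact hn

theorem hat (hFud : FudStmt) (hCjd : CjdStmt) : HatStmt := by
  intro ℓ _ M _ hM hℓ V₀ G _ _ _ _ E₀ hF B hB A hA
  have hinv : ∀ σ ∈ E₀, ∀ v ∈ A, σ⁻¹ v ∈ A := fun σ hσ => hA σ⁻¹ (E₀.inv_mem hσ)
  -- `T ≤ HA`
  have hT : Tg B.i.range B.g ≤ HA B A := by
    intro t ht
    obtain ⟨σ, hσ, hact⟩ := hB.act t ht
    refine ⟨?_, ?_⟩
    · show t ∈ Subgroup.normalizer ((A.map B.i : Subgroup G) : Set G)
      rw [Subgroup.mem_normalizer_iff]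
      intro n
      constructor
      · rintro ⟨v, hv, rfl⟩
        exact ⟨σ v, hA σ hσ v hv, (hact v).symm⟩
      · rintro ⟨v, hv, he⟩
        refine ⟨σ⁻¹ v, hinv σ hσ v hv, ?_⟩
        have h1 := hact (σ⁻¹ v)
        have h2 : σ (σ⁻¹ v) = v := MulAut.apply_inv_self _ σ v
        rw [h2, he] at h1
        exact mul_left_cancel (mul_right_cancel h1)
    · have h1 := (hCjd ℓ M hM hℓ V₀ G E₀ hF B hB σ hσ t ht hact A).1
      have h2 : A.map σ.toMonoidHom = A := by
        ext v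
        constructor
        · rintro ⟨w, hw, rfl⟩
          exact hA σ hσ w hw
        · intro hv
          exact ⟨σ⁻¹ v, hinv σ hσ v hv, MulAut.apply_inv_self _ σ v⟩
      rw [h2] at h1
      intro y
      have h3 := congrFun h1 (t * y * t⁻¹)
      have e : t⁻¹ * (t * y * t⁻¹) * t = y := by group
      have h4 : B.b A (t⁻¹ * (t * y * t⁻¹) * t) = B.b A (t * y * t⁻¹) := h3
      rw [e] at h4
      exact h4.symm
  -- `C A ≤ HA`
  have hC : B.C A ≤ HA B A := fun c hc => ⟨norm_of hc, stab_of (hB.lb A).blk hc⟩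
  have hCt : B.C ⊤ ≤ B.C A := Subgroup.centralizer_le (SetLike.coe_subset_coe.2
    (Subgroup.map_mono le_top))
  have hrange : (⊤ : Subgroup V₀).map B.i = B.i.range := by
    rw [← MonoidHom.range_eq_map]
  refine ⟨fun x => ⟨fun hx => ?_, ?_⟩, hT, hC, hCt.trans hC, ?_, ?_⟩
  · obtain ⟨hn, hs⟩ := hx
    have hn' := Subgroup.mem_normalizer_iff.1 hn
    have hex : ∀ v : V₀, ∃ u : V₀, v ∈ A → u ∈ A ∧ B.i u = x * B.i v * x⁻¹ := by
      intro v
      by_cases hv : v ∈ A
      · obtain ⟨u, hu, he⟩ := (hn' (B.i v)).1 ⟨v, hv, rfl⟩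
        exact ⟨u, fun _ => ⟨hu, he⟩⟩
      · exact ⟨1, fun h => absurd h hv⟩
    choose f hf using hex
    have hcj : cj x (B.b A) = B.b A := by
      funext y
      have h1 : B.b A (x * (x⁻¹ * y * x) * x⁻¹) = B.b A (x⁻¹ * y * x) := hs (x⁻¹ * y * x)
      have e : x * (x⁻¹ * y * x) * x⁻¹ = y := by group
      rw [e] at h1
      exact h1.symm
    obtain ⟨σ, -, -, t, ht, -, htx⟩ := hFud ℓ M hM V₀ G E₀ hF B hB A A x f
      (fun v hv => ((hf v hv).2).symm) (fun v hv => (hf v hv).1) (fun v hv => by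
        have h1 : x * (x⁻¹ * B.i v * x) * x⁻¹ = B.i v := by group
        have h2 : x⁻¹ * B.i v * x ∈ A.map B.i := by
          rw [hn', h1]
          exact ⟨v, hv, rfl⟩
        obtain ⟨u, hu, he⟩ := h2
        refine ⟨u, hu, ?_⟩
        apply hB.inj
        rw [(hf u hu).2, he]
        group) hcj
    exact ⟨t, ht, htx⟩
  · rintro ⟨t, ht, htx⟩
    have h1 := (HA B A).mul_mem (hT ht) (hC htx)
    rwa [mul_inv_cancel_left] at h1
  · intro x hx
    apply hC
    apply hCt
    obtain ⟨v, rfl⟩ := hx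
    show B.i v ∈ Subgroup.centralizer (((⊤ : Subgroup V₀).map B.i : Subgroup G) : Set G)
    rw [Subgroup.mem_centralizer_iff]
    rintro y ⟨w, -, rfl⟩
    rw [← map_mul, ← map_mul, mul_comm]
  · intro c hc
    have h1 : c ∈ Subgroup.centralizer ((B.i.range : Subgroup G) : Set G) := by
      have h2 : c ∈ Subgroup.centralizer (((⊤ : Subgroup V₀).map B.i : Subgroup G) : Set G) := hc
      rwa [hrange] at h2
    exact ⟨norm_of h1, stab_of hB.ld.gam h1⟩

end Pool.Agent.PP.SD.H17
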