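import Pool.Agent.ASD.Stmts4
import Pool.Agent.Helper10_ASO.LAC

/-!
# Row LAD of the squad ASD: integrality of the total sum

Adaptation of `Helper10_ASO/LAC.lean` (helper10), whose general lemmas are used.
-/

open scoped BigOperators

noncomputable section

namespace Pool.Agent.PP.SD.H17

open Pool.Agent.Helper51_AWC Pool.Agent.Helper79_WRA Pool.Agent.PP Pool.Agent.PP.KF
open Pool.Agent.PP.K9 Pool.Agent.PP.K9.H97 Pool.Agent.PP.H75 Pool.Agent.PP.T3
open Pool.Agent.PP.SO Pool.Agent.PP.SD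
open Pool.Agent.PP.SO.H10L (C_top bh_conj bh_supp Yg Yg_left Yg_right rl_mem mem_C c_mem)

attribute [local instance] Ideal.Quotient.field

/-! ### the weights -/

section wts

variable {V₀ G : Type} [CommGroup V₀] [Group G] [Finite G] {M : Ideal (integralClosure ℤ ℂ)}
  [M.IsMaximal]

theorem bh_sing (ℓ : ℕ) [Fact ℓ.Prime] (hM : (ℓ : integralClosure ℤ ℂ) ∈ M)
    {E₀ : Subgroup (MulAut V₀)} {B : Bk (FF M) V₀ G} (hB : Sb ℓ M E₀ B) (W : Subgroup V₀) (s : G)
    (hs : ¬ Reg ℓ s) : bh B W s = 0 := by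
  classical
  have := Fintype.ofFinite (B.C W)
  unfold bh PP.ext0
  by_cases h : s ∈ B.C W
  · rw [dif_pos h]
    refine K9.H25.eh_sing wbo_ ℓ M hM (fun t : B.C W => B.b W t) (hB.lb W).blk.blk.1 ⟨s, h⟩ ?_
    intro h1
    apply hs
    have h2 : orderOf (⟨s, h⟩ : B.C W) = orderOf s := by
      rw [← Subgroup.orderOf_coe]
    have h3 : (orderOf (⟨s, h⟩ : B.C W)).Coprime ℓ := h1
    show (orderOf s).Coprime ℓ
    rw [← h2]
    exact h3
  · rw [dif_neg h]

theorem wt_conj (E₀ : Subgroup (MulAut V₀)) (B : Bk (FF M) V₀ G) (c : V₀) (f : Bool) (z : G) (hz : z ∈ B.C (frm c f)) (s : G) :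
    wtD E₀ B c f (z * s * z⁻¹) = wtD E₀ B c f s := by
  unfold wtD
  cases f with
  | true =>
    have hz' : z ∈ B.C ⊤ := hz
    simp only [if_true]
    rw [bh_conj B ⊤ z hz']
  | false =>
    have hz' : z ∈ B.C (Subgroup.zpowers c) := hz
    simp only [Bool.false_eq_true, if_false]
    rw [bh_conj B _ z hz']
    congr 3
    rw [← finsum_comp_equiv (Equiv.mulLeft (⟨z, hz'⟩ : B.C (Subgroup.zpowers c)))]
    apply finsum_congr
    intro y
    congr 1
    show ((z * (y : G) : G))⁻¹ * (z * s * z⁻¹) * (z * (y : G)) = _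
    group

theorem wt_supp (E₀ : Subgroup (MulAut V₀)) (B : Bk (FF M) V₀ G) (c : V₀) (f : Bool) (s : G) (hs : s ∉ B.C (frm c f)) :
    wtD E₀ B c f s = 0 := by
  unfold wtD
  cases f with
  | true =>
    have hs' : s ∉ B.C ⊤ := hs
    simp only [if_true]
    rw [bh_supp B ⊤ s hs', mul_zero]
  | false =>
    have hs' : s ∉ B.C (Subgroup.zpowers c) := hs
    simp only [Bool.false_eq_true, if_false]
    rw [bh_supp B _ s hs']
    have h1 : ∀ z : B.C (Subgroup.zpowers c), bh B ⊤ ((z : G)⁻¹ * s * z) = 0 := by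
      intro z
      apply bh_supp
      intro h
      apply hs'
      have h2 := C_top B (Subgroup.zpowers c) h
      have h3 := (B.C (Subgroup.zpowers c)).mul_mem ((B.C (Subgroup.zpowers c)).mul_mem z.2 h2)
        ((B.C (Subgroup.zpowers c)).inv_mem z.2)
      have e : (z : G) * ((z : G)⁻¹ * s * z) * (z : G)⁻¹ = s := by group
      rwa [e] at h3
    simp only [h1, finsum_zero, mul_zero, sub_zero]

theorem wt_sing (ℓ : ℕ) [Fact ℓ.Prime] (hM : (ℓ : integralClosure ℤ ℂ) ∈ M)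
    {E₀ : Subgroup (MulAut V₀)} {B : Bk (FF M) V₀ G} (hB : Sb ℓ M E₀ B) (c : V₀) (f : Bool) (s : G)
    (hs : ¬ Reg ℓ s) : wtD E₀ B c f s = 0 := by
  unfold wtD
  cases f with
  | true =>
    simp only [if_true]
    rw [bh_sing ℓ hM hB ⊤ s hs, mul_zero]
  | false =>
    simp only [Bool.false_eq_true, if_false]
    rw [bh_sing ℓ hM hB _ s hs]
    have h1 : ∀ z : B.C (Subgroup.zpowers c), bh B ⊤ ((z : G)⁻¹ * s * z) = 0 := by
      intro z
      apply bh_sing ℓ hM hB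
      intro h
      apply hs
      unfold Reg at h ⊢
      have e : orderOf ((z : G)⁻¹ * s * z) = orderOf s := by
        have h2 := (MulAut.conj (z : G)⁻¹).orderOf_eq s
        rwa [MulAut.conj_apply, inv_inv] at h2
      rwa [e] at h
    simp only [h1, finsum_zero, mul_zero, sub_zero]

end wts

/-- Row LAD. -/
theorem lad (hC : CndStmt) : LadStmt := by
  classical
  intro ℓ _ M _ hM hℓ V₀ G _ _ _ _ E₀ hF B hB n m c d hc hd F₁₃ F₁₂ hR
  have : Fintype G := Fintype.ofFinite G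
  unfold TSD
  apply Subring.sum_mem
  intro f _
  apply Subring.sum_mem
  intro f' _
  rw [finsum_eq_sum_of_fintype, Fintype.sum_prod_type]
  -- abbreviations
  obtain ⟨P, hP⟩ : ∃ P, P = frm c f := ⟨_, rfl⟩
  obtain ⟨Q, hQ⟩ : ∃ Q, Q = frm d f' := ⟨_, rfl⟩
  have hcP : c ∈ P := hP ▸ c_mem c f
  have hdQ : d ∈ Q := hQ ▸ c_mem d f'
  obtain ⟨Y, hY⟩ : ∃ Y : G → G → ℚ, Y = fun s t => Yg n m B.i P Q F₁₃ F₁₂ (B.i c * s) (B.i d * t) :=
    ⟨_, rfl⟩
  have hgoal : ∀ s t : G, ((∑ᶠ z : XX (B.i c * s) (B.i d * t),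
      (F₁₃ (t13 n m B.i (frm c f) (frm d f') (B.i c * s) z.1.1 z.1.2.1 z.1.2.2) +
        F₁₂ (t12 n m B.i (frm c f) (frm d f') z.1.1 z.1.2.1 z.1.2.2)) : ℚ) : ℂ) =
      ((Y s t : ℚ) : ℂ) := by
    intro s t
    rw [hY, hP, hQ]
    rfl
  simp only [hgoal]
  have hYl : ∀ z ∈ B.C P, ∀ s t, Y (z * s * z⁻¹) t = Y s t := by
    intro z hz s t
    have h1 := mem_C B P z hz
    rw [hY]
    show Yg n m B.i P Q F₁₃ F₁₂ (B.i c * (z * s * z⁻¹)) (B.i d * t) = _
    have e : B.i c * (z * s * z⁻¹) = z * (B.i c * s) * z⁻¹ := by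
      calc B.i c * (z * s * z⁻¹) = (B.i c * z) * s * z⁻¹ := by group
        _ = (z * B.i c) * s * z⁻¹ := by rw [h1 c hcP]
        _ = z * (B.i c * s) * z⁻¹ := by group
    rw [e]
    exact Yg_left P Q F₁₃ F₁₂ _ _ z h1
  have hYr : ∀ z ∈ B.C Q, ∀ s t, Y s (z * t * z⁻¹) = Y s t := by
    intro z hz s t
    have h1 := mem_C B Q z hz
    rw [hY]
    show Yg n m B.i P Q F₁₃ F₁₂ (B.i c * s) (B.i d * (z * t * z⁻¹)) = _
    have e : B.i d * (z * t * z⁻¹) = z * (B.i d * t) * z⁻¹ := by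
      calc B.i d * (z * t * z⁻¹) = (B.i d * z) * t * z⁻¹ := by group
        _ = (z * B.i d) * t * z⁻¹ := by rw [h1 d hdQ]
        _ = z * (B.i d * t) * z⁻¹ := by group
    rw [e]
    exact Yg_right P Q F₁₃ F₁₂ _ _ z h1
  have hYv : ∀ s ∈ B.C P, ∀ t ∈ B.C Q, Reg ℓ s → Reg ℓ t →
      ∃ x ∈ SOR.Rl ℓ, Y s t = Nat.card P * Nat.card Q * x := by
    intro s hs t ht hrs hrt
    obtain ⟨x, hx, h⟩ := hR P Q hcP hdQ s t hrs hrt (fun p hp => (mem_C B P s hs p hp).symm)
      (fun q hq => (mem_C B Q t ht q hq).symm)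
    refine ⟨x, hx, ?_⟩
    rw [hY]
    exact h
  have hPc : (Nat.card P : ℂ) ≠ 0 := by
    have h : 0 < Nat.card P := Nat.card_pos
    exact_mod_cast h.ne'
  -- the inner sums
  have hin : ∀ s ∈ B.C P, Reg ℓ s → ∑ t, wtD E₀ B d f' t * ((Y s t : ℂ) / Nat.card P) ∈ RM M := by
    intro s hs hrs
    refine Pool.Agent.PP.SO.H10L.csum (RM M) (B.C Q) (fun t => wtD E₀ B d f' t * ((Y s t : ℂ) / Nat.card P)) ?_ ?_
    · intro z hz t
      have hz' : z ∈ B.C (frm d f') := hQ ▸ hz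
      show wtD E₀ B d f' (z * t * z⁻¹) * ((Y s (z * t * z⁻¹) : ℂ) / Nat.card P) = _
      rw [wt_conj E₀ B d f' z hz' t, hYr z hz s t]
    · intro t
      by_cases ht : t ∈ B.C Q
      · by_cases hrt : Reg ℓ t
        · obtain ⟨x, hx, h⟩ := hYv s hs t ht hrs hrt
          have h1 := hC ℓ M hM hℓ V₀ G E₀ hF B hB d hd f' t (hQ ▸ ht)
          rw [← hQ] at h1
          have h2 := (RM M).mul_mem h1 (rl_mem ℓ hM hx)
          have e : (Nat.card (B.C Q) : ℂ) * (wtD E₀ B d f' t * ((Y s t : ℂ) / Nat.card P)) /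
              Nat.card (B.C Q ⊓ Cu t : Subgroup G) =
              (Nat.card Q : ℂ) * (Nat.card (B.C Q) * wtD E₀ B d f' t) /
                Nat.card (B.C Q ⊓ Cu t : Subgroup G) * ((x : ℚ) : ℂ) := by
            rw [h]
            push_cast
            field_simp
          show (Nat.card (B.C Q) : ℂ) * (wtD E₀ B d f' t * ((Y s t : ℂ) / Nat.card P)) /
              Nat.card (B.C Q ⊓ Cu t : Subgroup G) ∈ RM M
          rw [e]
          exact h2
        · show (Nat.card (B.C Q) : ℂ) * (wtD E₀ B d f' t * ((Y s t : ℂ) / Nat.card P)) /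
              Nat.card (B.C Q ⊓ Cu t : Subgroup G) ∈ RM M
          rw [wt_sing ℓ hM hB.toSb d f' t hrt, zero_mul, mul_zero, zero_div]
          exact (RM M).zero_mem
      · show (Nat.card (B.C Q) : ℂ) * (wtD E₀ B d f' t * ((Y s t : ℂ) / Nat.card P)) /
              Nat.card (B.C Q ⊓ Cu t : Subgroup G) ∈ RM M
        rw [wt_supp E₀ B d f' t (hQ ▸ ht), zero_mul, mul_zero, zero_div]
        exact (RM M).zero_mem
  -- the outer sum
  have hs0 : ∑ s, ∑ t, wtD E₀ B c f s * wtD E₀ B d f' t * (Y s t : ℂ) =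
      ∑ s, wtD E₀ B c f s * ∑ t, wtD E₀ B d f' t * (Y s t : ℂ) := by
    refine Finset.sum_congr rfl fun s _ => ?_
    rw [Finset.mul_sum]
    exact Finset.sum_congr rfl fun t _ => by ring
  rw [hs0]
  refine Pool.Agent.PP.SO.H10L.csum (RM M) (B.C P) (fun s => wtD E₀ B c f s * ∑ t, wtD E₀ B d f' t * (Y s t : ℂ)) ?_ ?_
  · intro z hz s
    have hz' : z ∈ B.C (frm c f) := hP ▸ hz
    show wtD E₀ B c f (z * s * z⁻¹) * ∑ t, wtD E₀ B d f' t * (Y (z * s * z⁻¹) t : ℂ) = _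
    rw [wt_conj E₀ B c f z hz' s]
    simp only [hYl z hz]
  · intro s
    show (Nat.card (B.C P) : ℂ) * (wtD E₀ B c f s * ∑ t, wtD E₀ B d f' t * (Y s t : ℂ)) /
      Nat.card (B.C P ⊓ Cu s : Subgroup G) ∈ RM M
    by_cases hs : s ∈ B.C P
    · by_cases hrs : Reg ℓ s
      · have h1 := hC ℓ M hM hℓ V₀ G E₀ hF B hB c hc f s (hP ▸ hs)
        rw [← hP] at h1
        have h2 := (RM M).mul_mem h1 (hin s hs hrs)
        have e0 : ∑ t, wtD E₀ B d f' t * (Y s t : ℂ) =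
            Nat.card P * ∑ t, wtD E₀ B d f' t * ((Y s t : ℂ) / Nat.card P) := by
          rw [Finset.mul_sum]
          refine Finset.sum_congr rfl fun t _ => ?_
          field_simp
        have e : (Nat.card (B.C P) : ℂ) * (wtD E₀ B c f s * ∑ t, wtD E₀ B d f' t * (Y s t : ℂ)) /
            Nat.card (B.C P ⊓ Cu s : Subgroup G) =
            (Nat.card P : ℂ) * (Nat.card (B.C P) * wtD E₀ B c f s) /
              Nat.card (B.C P ⊓ Cu s : Subgroup G) *
              ∑ t, wtD E₀ B d f' t * ((Y s t : ℂ) / Nat.card P) := by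
          rw [e0]
          ring
        rw [e]
        exact h2
      · rw [wt_sing ℓ hM hB.toSb c f s hrs, zero_mul, mul_zero, zero_div]
        exact (RM M).zero_mem
    · rw [wt_supp E₀ B c f s (hP ▸ hs), zero_mul, mul_zero, zero_div]
      exact (RM M).zero_mem

end Pool.Agent.PP.SD.H17
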